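import Pool.Agent.Q274.FI.Graph
import Pool.Agent.Q274.FI.UMain

/-!
# Infinitely many n-hyper-irregular graphs

`copyDegree F G v` (in `Pool/Agent/Q274/FI/UBasic.lean`) is the `F`-degree of `v` in `G`: the number
of subgraphs of `G` that contain `v` and are isomorphic to `F`. A graph is `n`-hyper-irregular if it
is `F`-irregular for every graph `F` with `|F| ≤ n` and `|E(F)| ≥ 2`, where `F` may be disconnected
and may have isolated vertices.

Theorem. For every `n ≥ 3` (indeed every `n`) there are infinitely many `n`-hyper-irregular graphs.

The graphs are those of `MP_c25556_co`: two disjoint powers of paths, the `(R-1)`-st power of the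
path on `2R` vertices for `R = 16L` and `R = 2L`, and one more vertex `y` joined to all of them
except the first vertex of each path.

Proof. Let `X(v)` be the number of injective homomorphisms from `F` whose image contains `v`, and let
`H` be the graph with the missing edge from `y` to the first vertex of one path added. In `H` the
numbers grow towards the middle of the path by more than the number of homomorphisms through the
added edge, so only mirror images have to be compared. If `F` has a path of length two, reflecting
the component of the vertex mapped to the last vertex shows that the left vertex of such a pair lies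
in more copies with the edge from `y` to the first vertex. If `F` is a matching (with isolated
vertices), it lies in fewer of them: here the homomorphisms in which the first vertex is the image
of the partner of the root decide. Finally the component of the root can be moved from the small
block into a clique of the large block, and the root can be moved from the large block to `y`; both
injections miss many homomorphisms and are undefined only for few.
-/

set_option autoImplicit false

namespace Pool.Agent.Results.MP_0c99a5_co.HyperIrregular

open Pool.Agent.Q274.FI

/-- `G` is `n`-hyper-irregular. -/
def HyperIrregular {W : Type} (n : ℕ) (G : SimpleGraph W) : Prop :=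
  ∀ (V : Type) [Fintype V] (F : SimpleGraph V), Fintype.card V ≤ n → 2 ≤ F.edgeSet.ncard →
    ∀ u v : W, u ≠ v → copyDegree F G u ≠ copyDegree F G v

/-- For every `n ≥ 3` there are infinitely many `n`-hyper-irregular graphs (on infinitely many
different numbers of vertices). -/
theorem result : ∀ n : ℕ, 3 ≤ n →
    {m : ℕ | ∃ G : SimpleGraph (Fin m), HyperIrregular n G}.Infinite := by
  intro n _
  refine Set.infinite_of_forall_exists_gt fun K => ?_
  set L := n ^ 6 * 40 ^ n + K + 1 with hL
  refine ⟨36 * L + 1, ?_, by omega⟩
  obtain ⟨G, y, ι, κ, hT⟩ := exists_two L
  refine ⟨G, ?_⟩
  intro V _ F hn hE u v huv heq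
  have h1 : Fintype.card V ^ 6 * 40 ^ Fintype.card V ≤ n ^ 6 * 40 ^ n :=
    Nat.mul_le_mul (Nat.pow_le_pow_left hn 6) (Nat.pow_le_pow_right (by norm_num) hn)
  refine huv (hT.injectiveC (path_or_match F hE) (by omega) ?_)
  have h2 := EmbC_card_eq_of_degree heq
  rw [card_EmbC, card_EmbC] at h2
  exact h2

end Pool.Agent.Results.MP_0c99a5_co.HyperIrregular
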